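import Mathlib
import Pool.Agent.W651.HI.Defs

set_option autoImplicit false

namespace Pool.Agent.W837.HIEmb

open Set Topology unitInterval

theorem main : Pool.Agent.W651.HI.S_EMB := by
  intro X _ _
  obtain ⟨F, hF⟩ := Metric.PiNatEmbed.exists_embedding_to_hilbert_cube (X := X)
  exact ⟨ℕ → I, TopologicalSpace.metrizableSpaceMetric (ℕ → I),
    (inferInstance : CompactSpace (ℕ → I)), F, hF⟩

end Pool.Agent.W837.HIEmb
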